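import Mathlib
import Pool.Agent.H27.VVI

namespace Pool.Agent.Results.MP_177738_an.BoundedDisc

open Pool.Agent.H27.VVI

theorem result : ∃ (K : Set (En 4)) (F : Fin 2 → En 4 → En 4),
    K.Nonempty ∧ IsClosed K ∧ Convex ℝ K ∧ (∀ l, ContinuousOn (F l) K) ∧ Mono F K ∧
    Bornology.IsBounded (Sol F K) ∧ ¬ IsPreconnected (Sol F K) :=
  ⟨K1, F1, ⟨0, by simp [K1]⟩, K1_closed, K1_convex, fun l => (F1_cont l).continuousOn, F1_mono,
    ex1.1, ex1.2⟩

end Pool.Agent.Results.MP_177738_an.BoundedDisc
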